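import Pool.Agent.MP_67227b_nt.Lw.LwG

set_option autoImplicit false

open Filter Topology Set MeasureTheory
open scoped Real

/-! # A positive proportion of short clusters of `k` zeros of the zeta function, for every `k`

Assume the Riemann Hypothesis. There is a function `G` with `G s ≥ min (s/√(1+s)) √(s/2)` and
`G s * ∫_0^1 P(x)² x^(q-1) dx ≥ (2√q/π) ∫_0^1 |sin (π s y)| ∫_0^(1-y) P(x) P(x+y) x^(q-1) dx dy/y`
for all `q, s > 0` and all continuous nonincreasing `P ≥ 0` on `[0, 1]`, and `G s ≥ ϑ √s` for all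
large `s` if `ϑ < √2`, such that the following holds. Let `m ≥ 1`, `lam > 0` and `0 < θ ≤ 1`, and
suppose that `m < lam + G (lam θ)`, or that `m = 1` and `1 < lam (1 + θ)`. Then there is `c > 0`
such that, for all large `T`, at least `c T^θ log T` tuples of `m + 1` distinct zeros (counted with
multiplicity) with ordinates in `[T - T^θ, T]` have all their normalised differences to the last one
in `[0, lam]`.

For `θ = 1` this says that `N_k(T; [0, lam]^(k-1)) ≥ c T log T` if `lam > (k-1) - √(k-1)/2`, for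
every `k ≥ 2` (`Al.count_lower`), and for every `ϑ < √2` if `lam > (k-1) - ϑ √(k-1)` and `k` is
large. As `G 1.1 > 0.9`, for `k = 3` the length `lam = 1.1` is admissible. -/

namespace Pool.Agent.Results.MP_67227b_nt.AllLevels

open Pool.Agent.MP_67227b_nt

/-- The `(m+1)`-tuples of distinct (indices of) zeros with ordinates in `[T - H, T]` and normalised
differences to the last one in `[0, lam]`. -/
def windowTuples (m : ℕ) (T H lam : ℝ) : Set (Fin (m + 1) → ZetaZeroIdx) :=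
  {j | Function.Injective j ∧ (∀ i, zetaOrdinate (j i) ∈ Icc (T - H) T) ∧
    ∀ i : Fin m, (zetaOrdinate (j i.castSucc) - zetaOrdinate (j (Fin.last m))) *
      (Real.log T / (2 * π)) ∈ Icc 0 lam}

theorem result (hRH : RiemannHypothesis) :
    ∃ G : ℝ → ℝ,
      (∀ s : ℝ, 0 < s → min (s / Real.sqrt (1 + s)) (Real.sqrt (s / 2)) ≤ G s) ∧
      (∀ (q s : ℝ) (P : ℝ → ℝ), 0 < q → 0 < s → ContinuousOn P (Icc 0 1) →
        AntitoneOn P (Icc 0 1) → 0 ≤ P 1 →
        2 * Real.sqrt q / π * (∫ y in (0 : ℝ)..1, |Real.sin (π * s * y)| / y *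
          ∫ x in (0 : ℝ)..(1 - y), P x * P (x + y) * x ^ (q - 1)) ≤
            G s * ∫ x in (0 : ℝ)..1, P x ^ 2 * x ^ (q - 1)) ∧
      (∀ ϑ : ℝ, ϑ < Real.sqrt 2 → ∀ᶠ s : ℝ in atTop, ϑ * Real.sqrt s ≤ G s) ∧
      0.9 < G 1.1 ∧
      ∀ (m : ℕ) (lam θ : ℝ), 1 ≤ m → 0 < lam → 0 < θ → θ ≤ 1 →
        ((m = 1 ∧ 1 < lam * (1 + θ)) ∨ (m : ℝ) < lam + G (lam * θ)) →
        ∃ c : ℝ, 0 < c ∧ ∀ᶠ T : ℝ in atTop, c * (T ^ θ * Real.log T) ≤
          ((windowTuples m T (T ^ θ) lam).ncard : ℝ) := by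
  have hs2 : 0 < Real.sqrt 2 := Real.sqrt_pos.mpr (by norm_num)
  -- the sequence of constants
  have hϑ : ∀ n : ℕ, 0 ≤ Real.sqrt 2 * (1 - 1 / (n + 1)) ∧
      Real.sqrt 2 * (1 - 1 / (n + 1)) < Real.sqrt 2 := by
    intro n
    have h1 : (0:ℝ) < 1 / (n + 1) := by positivity
    have h2 : 1 / ((n:ℝ) + 1) ≤ 1 := by
      rw [div_le_one (by positivity)]
      linarith [(Nat.cast_nonneg n : (0:ℝ) ≤ n)]
    constructor
    · apply mul_nonneg hs2.le
      linarith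
    · nlinarith
  choose s₀ hs₀ hs using fun n : ℕ => Al.pos_prop_large hRH (hϑ n).1 (hϑ n).2
  let A : ℝ → Set ℝ := fun s => {x | x = Al.Gf s ∨
    (∃ (q : ℝ) (P : ℝ → ℝ), Lw.Cut q P ∧ 0 < Lw.NP q P s ∧ x = Lw.GP q P s) ∨
    ∃ n : ℕ, s₀ n ≤ s ∧ x = Real.sqrt 2 * (1 - 1 / (n + 1)) * Real.sqrt s}
  have hne : ∀ s, (A s).Nonempty := fun s => ⟨Al.Gf s, Or.inl rfl⟩
  have hbdd : ∀ s, 0 < s → BddAbove (A s) := by
    intro s hs0
    refine ⟨max (Al.Gf s) (max (2 * s) (Real.sqrt 2 * Real.sqrt s)), ?_⟩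
    rintro x (rfl | ⟨q, P, hP, hpos, rfl⟩ | ⟨n, -, rfl⟩)
    · exact le_max_left _ _
    · exact le_max_of_le_right (le_max_of_le_left (Lw.GP_le hs0 hP hpos))
    · exact le_max_of_le_right (le_max_of_le_right
        (mul_le_mul_of_nonneg_right (hϑ n).2.le (Real.sqrt_nonneg _)))
  refine ⟨fun s => sSup (A s), fun s hs0 => ?_, fun q s P hq hs0 hP hPa hP1 => ?_,
    fun ϑ h => ?_, ?_, ?_⟩
  · exact le_csSup (hbdd s hs0) (Or.inl rfl)
  · refine Lw.clause_P hq hs0 hP hPa hP1 ?_ fun q P hC hpos =>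
      le_csSup (hbdd s hs0) (Or.inr (Or.inl ⟨q, P, hC, hpos, rfl⟩))
    have h0 : 0 ≤ Al.Gf s := by
      unfold Al.Gf
      positivity
    exact h0.trans (le_csSup (hbdd s hs0) (Or.inl rfl))
  · -- choose `n` with `ϑ ≤ √2 (1 - 1/(n+1))`
    have hlim : Tendsto (fun n : ℕ => Real.sqrt 2 * (1 - 1 / ((n:ℝ) + 1))) atTop
        (𝓝 (Real.sqrt 2)) := by
      have := (tendsto_one_div_add_atTop_nhds_zero_nat (𝕜 := ℝ)).const_sub 1
      simpa using this.const_mul (Real.sqrt 2)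
    obtain ⟨n, hn⟩ := (hlim.eventually (lt_mem_nhds h)).exists
    filter_upwards [eventually_ge_atTop (s₀ n)] with s hsn
    refine le_trans (mul_le_mul_of_nonneg_right hn.le (Real.sqrt_nonneg _)) ?_
    exact le_csSup (hbdd s (lt_of_lt_of_le (hs₀ n) hsn)) (Or.inr (Or.inr ⟨n, hsn, rfl⟩))
  · obtain ⟨hC, hpos, hgt⟩ := Lw.gp11
    exact lt_of_lt_of_le hgt
      (le_csSup (hbdd 1.1 (by norm_num)) (Or.inr (Or.inl ⟨4, _, hC, hpos, rfl⟩)))
  · intro m lam θ hm hlam hθ0 hθ1 h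
    rcases h with h | h
    · exact Al.pos_prop_m hRH hm hlam hθ0 hθ1 (Or.inl h)
    · have h' : (m : ℝ) - lam < sSup (A (lam * θ)) := by linarith
      obtain ⟨x, hx, hlt⟩ := exists_lt_of_lt_csSup (hne _) h'
      rcases hx with rfl | ⟨q, P, hP, hpos, rfl⟩ | ⟨n, hn, rfl⟩
      · exact Al.pos_prop_m hRH hm hlam hθ0 hθ1 (Or.inr (by linarith))
      · exact Lw.pos_prop_GP hRH hm hlam hθ0 hθ1 hP hpos (by linarith)
      · exact hs n m lam θ hm hθ0 hθ1 hn (by linarith)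

end Pool.Agent.Results.MP_67227b_nt.AllLevels
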