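import Pool.Agent.MP_67227b_nt.Gg.GgMain

set_option autoImplicit false

open Filter Topology Set
open scoped Real

/-! # A pointwise lower bound for Montgomery's function beyond 1 under the Riemann Hypothesis alone

`montF T α = F(α, T) = ((T/2π) log T)^{-1} ∑_{0 < γ, γ' ≤ T} T^{iα(γ-γ')} 4/(4 + (γ-γ')²)`, the sum over
all pairs of zeros of the zeta function, with multiplicity. Under RH, for every `ε > 0` and all large
`T`, `F(α, T) ≥ 3/2 - |α| - ε` for all real `α` with `|α| ≥ 1`. Goldston, Gonek, Özlük and Snyder
proved this bound under the generalised Riemann Hypothesis for all Dirichlet `L`-functions. -/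

namespace Pool.Agent.Results.MP_67227b_nt.FLowerBound

open Pool.Agent.MP_67227b_nt Pool.Agent.MP_67227b_nt.Fb

theorem result (hRH : RiemannHypothesis) {ε : ℝ} (hε : 0 < ε) :
    ∀ᶠ T : ℝ in atTop, ∀ α : ℝ, 1 ≤ |α| → 3 / 2 - |α| - ε ≤ montF T α := by
  have heven : ∀ T α : ℝ, montF T |α| = montF T α := by
    intro T α
    rcases abs_choice α with h | h
    · rw [h]
    · rw [h]
      unfold montF
      congr 1
      refine Finset.sum_congr rfl fun i _ => Finset.sum_congr rfl fun j _ => ?_
      rw [neg_mul, neg_mul, Real.cos_neg]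
  filter_upwards [Gg.final hRH hε] with T hT α hα
  rw [← heven T α]
  exact hT |α| hα

end Pool.Agent.Results.MP_67227b_nt.FLowerBound
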