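import Pool.Agent.MP_67227b_nt.Gk.GkZg

set_option autoImplicit false

open Filter Topology Set MeasureTheory
open scoped Real ContDiff

/-! # Correlations of zeros at all even levels beyond the range of Rudnick and Sarnak

Assume the Riemann Hypothesis. `linStat g a T t` is the sum
`S_g(a, T, t) = ∑_{0 < γ ≤ T} ∫ g(v) e^{i(a log T + v)(γ - t)} dv`, a smoothed sum of `T^{ia(γ - t)}` over
the zeros near `t`. For `n ≥ 1`, nonnegative profiles `η_1, .., η_n` and a profile `g`, all smooth of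
compact support, and `ε > 0`: for all large `T`, uniformly in all real `a_1, .., a_n` and all
`|α| ≥ 1`, the mean value
`(1/(T (log T)^{n+1})) ∫_0^T |S_{η_1}(a_1, T, t)|² .. |S_{η_n}(a_n, T, t)|² |S_g(α, T, t)|² dt`,
a smoothed sum over `2n + 2` zeros with the frequencies `(a_1, -a_1, .., a_n, -a_n, α, -α)`, is at least
`(3/2 - |α| - ∑ |a_j|) ∏ |a_j| ∏ ∫ η_j² ∫ g² - ε`. -/

namespace Pool.Agent.Results.MP_67227b_nt.HigherFormFactor

open Pool.Agent.MP_67227b_nt Pool.Agent.MP_67227b_nt.Gk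

theorem result (hRH : RiemannHypothesis) {n : ℕ} (hn : 1 ≤ n) {η : Fin n → ℝ → ℝ} {g : ℝ → ℝ}
    (hη : ∀ j, ContDiff ℝ ∞ (η j)) (hηc : ∀ j, HasCompactSupport (η j))
    (hη0 : ∀ j v, 0 ≤ η j v) (hg : ContDiff ℝ ∞ g) (hgc : HasCompactSupport g) {ε : ℝ}
    (hε : 0 < ε) :
    ∀ᶠ T : ℝ in atTop, ∀ a : Fin n → ℝ, ∀ α : ℝ, 1 ≤ |α| →
      (3 / 2 - |α| - ∑ j, |a j|) * (∏ j, (|a j| * ∫ v, η j v ^ 2)) * (∫ v, g v ^ 2) - ε ≤
        (∫ t in (0 : ℝ)..T, (∏ j, ‖linStat (η j) (a j) T t‖ ^ 2) * ‖linStat g α T t‖ ^ 2) /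
          (T * Real.log T ^ (n + 1)) := by
  filter_upwards [kform hRH hη hηc hη0 hg hgc hε, eventually_gt_atTop 1] with T hT hT1 a α hα
  have hT0 : 0 < T := by linarith
  have hL : 0 < Real.log T := Real.log_pos hT1
  rw [le_div_iff₀ (by positivity)]
  exact hT a α hα

end Pool.Agent.Results.MP_67227b_nt.HigherFormFactor
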