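import Pool.Agent.MP_67227b_nt.Lw.LwG

set_option autoImplicit false

open Filter Topology Set MeasureTheory
open scoped Real

/-! # A positive proportion of large gaps between the zeros of the zeta function, all levels

Assume the Riemann Hypothesis. There is a function `G` with
`G s * ∫_0^1 P(x)² x^(q-1) dx ≥ (2√q/π) ∫_0^1 |sin (π s y)| ∫_0^(1-y) P(x) P(x+y) x^(q-1) dx dy/y`
for all `q, s > 0` and all continuous nonincreasing `P ≥ 0` on `[0, 1]`, and `G s ≥ ϑ √s` for all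
large `s` if `ϑ < √2`, such that the following holds. Let `m ≥ 1`, `lam > 0` and `0 < θ ≤ 1`, and
suppose that `lam - G (lam θ) < m`. Then the points `t` of `[T - T^θ, T]` for which
`(t, t + 2π lam/log T]` contains the ordinates of at most `m - 1` zeros (with multiplicity) have
measure at least `c T^θ`. If `θ = 1` the same holds for at least `c T log T` points `t` which are
themselves ordinates of zeros (without multiplicity), that is for a positive proportion of the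
gaps.

As `G 2.7 > 1.7`, for `m = 1` the gap `2.7` is admissible: a positive proportion of the
normalised gaps exceeds `2.7`. -/

namespace Pool.Agent.Results.MP_67227b_nt.LargeGaps

open Pool.Agent.MP_67227b_nt

/-- The number of (indices of) zeros with ordinates in `(t, t + a]`. -/
noncomputable def countIn (t a : ℝ) : ℕ := {j : ZetaZeroIdx | zetaOrdinate j ∈ Ioc t (t + a)}.ncard

/-- The points of `[T - H, T]` followed by fewer than `m` zeros within distance `a`. -/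
def gapPoints (m : ℕ) (T H a : ℝ) : Set ℝ := {t ∈ Icc (T - H) T | countIn t a < m}

/-- The ordinates of zeros up to `T` (a set of real numbers, so without multiplicity) followed by
fewer than `m` zeros within distance `a`. -/
def gapOrdinates (m : ℕ) (T a : ℝ) : Set ℝ :=
  {g | g ≤ T ∧ (∃ j : ZetaZeroIdx, zetaOrdinate j = g) ∧ countIn g a < m}

theorem result (hRH : RiemannHypothesis) :
    ∃ G : ℝ → ℝ,
      (∀ (q s : ℝ) (P : ℝ → ℝ), 0 < q → 0 < s → ContinuousOn P (Icc 0 1) →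
        AntitoneOn P (Icc 0 1) → 0 ≤ P 1 →
        2 * Real.sqrt q / π * (∫ y in (0 : ℝ)..1, |Real.sin (π * s * y)| / y *
          ∫ x in (0 : ℝ)..(1 - y), P x * P (x + y) * x ^ (q - 1)) ≤
            G s * ∫ x in (0 : ℝ)..1, P x ^ 2 * x ^ (q - 1)) ∧
      (∀ ϑ : ℝ, ϑ < Real.sqrt 2 → ∀ᶠ s : ℝ in atTop, ϑ * Real.sqrt s ≤ G s) ∧
      1.7 < G 2.7 ∧
      ∀ (m : ℕ) (lam θ : ℝ), 1 ≤ m → 0 < lam → 0 < θ → θ ≤ 1 → lam - G (lam * θ) < m →
        ∃ c : ℝ, 0 < c ∧ ∀ᶠ T : ℝ in atTop,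
          c * T ^ θ ≤ volume.real (gapPoints m T (T ^ θ) (2 * π * lam / Real.log T)) ∧
          (θ = 1 → c * (T * Real.log T) ≤
            ((gapOrdinates m T (2 * π * lam / Real.log T)).ncard : ℝ)) := by
  have hs2 : 0 < Real.sqrt 2 := Real.sqrt_pos.mpr (by norm_num)
  have hϑ : ∀ n : ℕ, 0 ≤ Real.sqrt 2 * (1 - 1 / (n + 1)) ∧
      Real.sqrt 2 * (1 - 1 / (n + 1)) < Real.sqrt 2 := by
    intro n
    have h1 : (0 : ℝ) < 1 / (n + 1) := by positivity
    have h2 : 1 / ((n : ℝ) + 1) ≤ 1 := by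
      rw [div_le_one (by positivity)]
      linarith [(Nat.cast_nonneg n : (0 : ℝ) ≤ n)]
    constructor
    · apply mul_nonneg hs2.le
      linarith
    · nlinarith
  choose s₀ hs₀ hs using fun n : ℕ => Lg.gaps_large hRH (hϑ n).1 (hϑ n).2
  let A : ℝ → Set ℝ := fun s => {x | (∃ q : ℝ, 0 < q ∧ x = Lg.GS q s) ∨
    (∃ (q : ℝ) (P : ℝ → ℝ), Lw.Cut q P ∧ 0 < Lw.NP q P s ∧ x = Lw.GP q P s) ∨
    ∃ n : ℕ, s₀ n ≤ s ∧ x = Real.sqrt 2 * (1 - 1 / (n + 1)) * Real.sqrt s}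
  have hne : ∀ s, (A s).Nonempty := fun s => ⟨Lg.GS 1 s, Or.inl ⟨1, one_pos, rfl⟩⟩
  have hbdd : ∀ s, 0 < s → BddAbove (A s) := by
    intro s hs0
    refine ⟨max (2 * s) (Real.sqrt 2 * Real.sqrt s), ?_⟩
    rintro x (⟨q, hq, rfl⟩ | ⟨q, P, hP, hpos, rfl⟩ | ⟨n, -, rfl⟩)
    · exact le_max_of_le_left ((Lg.GS_le hq hs0.le).trans (by linarith))
    · exact le_max_of_le_left (Lw.GP_le hs0 hP hpos)
    · exact le_max_of_le_right (mul_le_mul_of_nonneg_right (hϑ n).2.le (Real.sqrt_nonneg _))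
  refine ⟨fun s => sSup (A s), fun q s P hq hs0 hP hPa hP1 => ?_, fun ϑ h => ?_, ?_, ?_⟩
  · refine Lw.clause_P hq hs0 hP hPa hP1 ?_ fun q P hC hpos =>
      le_csSup (hbdd s hs0) (Or.inr (Or.inl ⟨q, P, hC, hpos, rfl⟩))
    exact (Lg.GS_pos one_pos hs0).le.trans (le_csSup (hbdd s hs0) (Or.inl ⟨1, one_pos, rfl⟩))
  · have hlim : Tendsto (fun n : ℕ => Real.sqrt 2 * (1 - 1 / ((n : ℝ) + 1))) atTop
        (𝓝 (Real.sqrt 2)) := by
      have := (tendsto_one_div_add_atTop_nhds_zero_nat (𝕜 := ℝ)).const_sub 1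
      simpa using this.const_mul (Real.sqrt 2)
    obtain ⟨n, hn⟩ := (hlim.eventually (lt_mem_nhds h)).exists
    filter_upwards [eventually_ge_atTop (s₀ n)] with s hsn
    refine le_trans (mul_le_mul_of_nonneg_right hn.le (Real.sqrt_nonneg _)) ?_
    exact le_csSup (hbdd s (lt_of_lt_of_le (hs₀ n) hsn)) (Or.inr (Or.inr ⟨n, hsn, rfl⟩))
  · obtain ⟨hC, hpos, hgt⟩ := Lw.gp27
    exact lt_of_lt_of_le hgt
      (le_csSup (hbdd 2.7 (by norm_num)) (Or.inr (Or.inl ⟨9, _, hC, hpos, rfl⟩)))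
  · intro m lam θ hm hlam hθ0 hθ1 h
    have h' : lam - m < sSup (A (lam * θ)) := by linarith
    obtain ⟨x, hx, hlt⟩ := exists_lt_of_lt_csSup (hne _) h'
    rcases hx with ⟨q, hq, rfl⟩ | ⟨q, P, hP, hpos, rfl⟩ | ⟨n, hn, rfl⟩
    · exact Lg.gaps_sharp hRH hm hlam hθ0 hθ1 hq (by linarith)
    · exact Lw.gaps_GP hRH hm hlam hθ0 hθ1 hP hpos (by linarith)
    · exact hs n m lam θ hm hθ0 hθ1 hn (by linarith)

end Pool.Agent.Results.MP_67227b_nt.LargeGaps
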